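import Mathlib

set_option autoImplicit false

/-! Brick SOL of helper1's project FC. -/

namespace Pool.Agent.K3h16.FC

open Polynomial

/-- an integer which is a nonzero square modulo an odd prime is a square in the `r`-adic numbers -/
lemma sq_odd (r : ℕ) [Fact r.Prime] (h2 : r ≠ 2) (c k : ℤ) (h : (r : ℤ) ∣ k ^ 2 - c)
    (hk : ¬ (r : ℤ) ∣ k) : ∃ w : ℚ_[r], w ^ 2 = c := by
  have hr : r.Prime := Fact.out
  have h2k : ¬ (r : ℤ) ∣ 2 * k := by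
    intro h3
    rcases (Nat.prime_iff_prime_int.1 hr).dvd_or_dvd h3 with h4 | h4
    · have : r ∣ 2 := by exact_mod_cast h4
      exact h2 ((Nat.prime_dvd_prime_iff_eq hr Nat.prime_two).1 this)
    · exact hk h4
  have hn : ‖(X ^ 2 - C c : ℤ[X]).aeval (k : ℤ_[r])‖ <
      ‖(derivative (X ^ 2 - C c : ℤ[X])).aeval (k : ℤ_[r])‖ ^ 2 := by
    have e1 : (X ^ 2 - C c : ℤ[X]).aeval (k : ℤ_[r]) = ((k ^ 2 - c : ℤ) : ℤ_[r]) := by
      simp
    have e2 : (derivative (X ^ 2 - C c : ℤ[X])).aeval (k : ℤ_[r]) = ((2 * k : ℤ) : ℤ_[r]) := by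
      simp [one_add_one_eq_two, map_ofNat]
    rw [e1, e2]
    have h5 : ‖((k ^ 2 - c : ℤ) : ℤ_[r])‖ < 1 := (PadicInt.norm_int_lt_one_iff_dvd _).2 h
    have h6 : ‖((2 * k : ℤ) : ℤ_[r])‖ = 1 := by
      apply le_antisymm (PadicInt.norm_le_one _)
      by_contra h7
      push Not at h7
      exact h2k ((PadicInt.norm_int_lt_one_iff_dvd _).1 h7)
    rw [h6]
    simpa using h5
  obtain ⟨z, hz, -⟩ := hensels_lemma hn
  refine ⟨(z : ℚ_[r]), ?_⟩
  have hz' : z ^ 2 - (c : ℤ_[r]) = 0 := by simpa using hz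
  have : z ^ 2 = (c : ℤ_[r]) := by linear_combination hz'
  have h8 := congrArg (fun t : ℤ_[r] => (t : ℚ_[r])) this
  simpa using h8

/-- an integer congruent to `1` modulo `8` is a square in the `2`-adic numbers -/
lemma sq_two (c : ℤ) (h : (8 : ℤ) ∣ 1 - c) : ∃ w : ℚ_[2], w ^ 2 = c := by
  have hn : ‖(X ^ 2 - C c : ℤ[X]).aeval (1 : ℤ_[2])‖ <
      ‖(derivative (X ^ 2 - C c : ℤ[X])).aeval (1 : ℤ_[2])‖ ^ 2 := by
    have e1 : (X ^ 2 - C c : ℤ[X]).aeval (1 : ℤ_[2]) = ((1 - c : ℤ) : ℤ_[2]) := by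
      simp
    have e2 : (derivative (X ^ 2 - C c : ℤ[X])).aeval (1 : ℤ_[2]) = ((2 : ℕ) : ℤ_[2]) := by
      simp [one_add_one_eq_two, map_ofNat]
    rw [e1, e2]
    have h5 : ‖((1 - c : ℤ) : ℤ_[2])‖ ≤ ((2 : ℕ) : ℝ) ^ (-(3 : ℕ) : ℤ) :=
      PadicInt.norm_int_le_pow_iff_dvd.2 (by norm_num; exact h)
    have h6 : ‖((2 : ℕ) : ℤ_[2])‖ = (2 : ℝ)⁻¹ := by
      have := PadicInt.norm_p (p := 2)
      simpa using this
    rw [h6]
    refine lt_of_le_of_lt h5 ?_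
    norm_num
  obtain ⟨z, hz, -⟩ := hensels_lemma hn
  refine ⟨(z : ℚ_[2]), ?_⟩
  have hz' : z ^ 2 - (c : ℤ_[2]) = 0 := by simpa using hz
  have : z ^ 2 = (c : ℤ_[2]) := by linear_combination hz'
  have h8 := congrArg (fun t : ℤ_[2] => (t : ℚ_[2])) this
  simpa using h8

/-- cube roots of unity in the `p`-adic numbers -/
lemma cube (p : ℕ) [Fact p.Prime] (h : p % 3 = 1) : ∃ w : ℚ_[p], w ^ 2 + w + 1 = 0 := by
  have hp : p.Prime := Fact.out
  have h3 : p ≠ 3 := by rintro rfl; omega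
  obtain ⟨u, hu⟩ : ∃ u : (ZMod p)ˣ, orderOf u = 3 := by
    have : Fact (Nat.Prime 3) := ⟨Nat.prime_three⟩
    apply exists_prime_orderOf_dvd_card
    rw [ZMod.card_units p]
    have := hp.one_lt
    omega
  have hu3 : u ^ 3 = 1 := by rw [← hu]; exact pow_orderOf_eq_one u
  have hu1 : u ≠ 1 := by
    rintro rfl
    rw [orderOf_one] at hu
    omega
  have hz : ((u : ZMod p)) ^ 2 + u + 1 = 0 := by
    have h4 : ((u : ZMod p)) ^ 3 = 1 := by
      rw [← Units.val_pow_eq_pow_val, hu3, Units.val_one]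
    have h5 : ((u : ZMod p) - 1) * ((u : ZMod p) ^ 2 + u + 1) = 0 := by linear_combination h4
    rcases mul_eq_zero.1 h5 with h6 | h6
    · exfalso
      apply hu1
      ext
      rw [Units.val_one]
      linear_combination h6
    · exact h6
  set t : ℤ := ((u : ZMod p).val : ℤ) with ht
  have htc : (t : ZMod p) = u := by
    rw [ht, Int.cast_natCast, ZMod.natCast_zmod_val]
  have hd : (p : ℤ) ∣ t ^ 2 + t + 1 := by
    rw [← ZMod.intCast_zmod_eq_zero_iff_dvd]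
    push_cast
    rw [htc]
    exact hz
  have hd2 : ¬ (p : ℤ) ∣ 2 * t + 1 := by
    intro h7
    have h8 : (p : ℤ) ∣ 3 := by
      have h9 := dvd_sub (dvd_mul_of_dvd_right hd 4) (dvd_mul_of_dvd_right h7 (2 * t + 1))
      have h10 : 4 * (t ^ 2 + t + 1) - (2 * t + 1) * (2 * t + 1) = 3 := by ring
      rwa [h10] at h9
    have : p ∣ 3 := by exact_mod_cast h8
    exact h3 ((Nat.prime_dvd_prime_iff_eq hp Nat.prime_three).1 this)
  have hn : ‖(X ^ 2 + X + 1 : ℤ[X]).aeval (t : ℤ_[p])‖ <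
      ‖(derivative (X ^ 2 + X + 1 : ℤ[X])).aeval (t : ℤ_[p])‖ ^ 2 := by
    have e1 : (X ^ 2 + X + 1 : ℤ[X]).aeval (t : ℤ_[p]) = ((t ^ 2 + t + 1 : ℤ) : ℤ_[p]) := by
      simp
    have e2 : (derivative (X ^ 2 + X + 1 : ℤ[X])).aeval (t : ℤ_[p]) =
        ((2 * t + 1 : ℤ) : ℤ_[p]) := by
      simp [one_add_one_eq_two, map_ofNat]
    rw [e1, e2]
    have h5 : ‖((t ^ 2 + t + 1 : ℤ) : ℤ_[p])‖ < 1 := (PadicInt.norm_int_lt_one_iff_dvd _).2 hd
    have h6 : ‖((2 * t + 1 : ℤ) : ℤ_[p])‖ = 1 := by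
      apply le_antisymm (PadicInt.norm_le_one _)
      by_contra h7
      push Not at h7
      exact hd2 ((PadicInt.norm_int_lt_one_iff_dvd _).1 h7)
    rw [h6]
    simpa using h5
  obtain ⟨z, hz, -⟩ := hensels_lemma hn
  refine ⟨(z : ℚ_[p]), ?_⟩
  have hz' : z ^ 2 + z + 1 = 0 := by simpa using hz
  have h8 := congrArg (fun t : ℤ_[p] => (t : ℚ_[p])) hz'
  simpa using h8

/-- one of `-1`, `-c`, `c` is a square -/
lemma three (r : ℕ) [Fact r.Prime] (h2 : r ≠ 2) (c : ℤ) (hc : ¬ (r : ℤ) ∣ c) :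
    (∃ k : ℤ, (r : ℤ) ∣ k ^ 2 - (-1) ∧ ¬ (r : ℤ) ∣ k) ∨
    (∃ k : ℤ, (r : ℤ) ∣ k ^ 2 - (-c) ∧ ¬ (r : ℤ) ∣ k) ∨
    (∃ k : ℤ, (r : ℤ) ∣ k ^ 2 - c ∧ ¬ (r : ℤ) ∣ k) := by
  have hr : r.Prime := Fact.out
  have key : ∀ e : ℤ, ¬ (r : ℤ) ∣ e → IsSquare (e : ZMod r) →
      ∃ k : ℤ, (r : ℤ) ∣ k ^ 2 - e ∧ ¬ (r : ℤ) ∣ k := by
    intro e he hs
    obtain ⟨s, hs⟩ := hs
    have hsc : (((s.val : ℤ)) : ZMod r) = s := by
      rw [Int.cast_natCast, ZMod.natCast_zmod_val]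
    have h1 : (r : ℤ) ∣ (s.val : ℤ) ^ 2 - e := by
      rw [← ZMod.intCast_zmod_eq_zero_iff_dvd]
      push_cast [hsc]
      rw [hs]
      ring
    refine ⟨(s.val : ℤ), h1, ?_⟩
    intro h3
    apply he
    have h4 : (r : ℤ) ∣ (s.val : ℤ) ^ 2 := dvd_pow h3 two_ne_zero
    have h5 := dvd_sub h4 h1
    have h6 : (s.val : ℤ) ^ 2 - ((s.val : ℤ) ^ 2 - e) = e := by ring
    rwa [h6] at h5
  have h1 : ¬ (r : ℤ) ∣ -1 := by
    intro h
    have h3 : (r : ℤ) ∣ 1 := by simpa using h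
    have : r ∣ 1 := by exact_mod_cast h3
    exact hr.one_lt.ne' (Nat.dvd_one.1 this)
  have hch : ringChar (ZMod r) ≠ 2 := by rwa [ZMod.ringChar_zmod_n]
  by_cases s1 : IsSquare ((-1 : ℤ) : ZMod r)
  · exact Or.inl (key _ h1 s1)
  by_cases s2 : IsSquare ((c : ℤ) : ZMod r)
  · exact Or.inr (Or.inr (key _ hc s2))
  right; left
  apply key _ (by rwa [dvd_neg])
  have hc0 : ((c : ℤ) : ZMod r) ≠ 0 := by
    rwa [Ne, ZMod.intCast_zmod_eq_zero_iff_dvd]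
  have h10 : ((-1 : ℤ) : ZMod r) ≠ 0 := by
    rwa [Ne, ZMod.intCast_zmod_eq_zero_iff_dvd]
  have e1 : quadraticChar (ZMod r) ((-1 : ℤ) : ZMod r) = -1 :=
    quadraticChar_neg_one_iff_not_isSquare.2 s1
  have e2 : quadraticChar (ZMod r) ((c : ℤ) : ZMod r) = -1 :=
    quadraticChar_neg_one_iff_not_isSquare.2 s2
  have e3 : quadraticChar (ZMod r) ((-c : ℤ) : ZMod r) = 1 := by
    have : ((-c : ℤ) : ZMod r) = ((-1 : ℤ) : ZMod r) * ((c : ℤ) : ZMod r) := by push_cast; ring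
    rw [this, map_mul, e1, e2]
    norm_num
  refine (quadraticChar_one_iff_isSquare ?_).1 e3
  push_cast
  exact neg_ne_zero.2 hc0

theorem sol (p : ℕ) (hp : p.Prime) (h24 : p % 24 = 7) (a b : ℤ) (ha : ¬ (p : ℤ) ∣ a)
    (hb : ¬ (p : ℤ) ∣ b) :
    (∀ (r : ℕ) [Fact r.Prime], ∃ x y z w : ℚ_[r], (x ≠ 0 ∨ y ≠ 0 ∨ z ≠ 0) ∧
      x ^ p + y ^ p + z ^ p = 0 ∧
      w ^ 2 = x ^ 3 * y ^ 3 + p * a ^ 2 * (y ^ 3 * z ^ 3) - p * b ^ 2 * (z ^ 3 * x ^ 3)) ∧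
    ∃ x y z w : ℝ, (x ≠ 0 ∨ y ≠ 0 ∨ z ≠ 0) ∧ x ^ p + y ^ p + z ^ p = 0 ∧
      w ^ 2 = x ^ 3 * y ^ 3 + p * a ^ 2 * (y ^ 3 * z ^ 3) - p * b ^ 2 * (z ^ 3 * x ^ 3) := by
  have hodd : Odd p := by
    rw [Nat.odd_iff]; omega
  have hp0 : p ≠ 0 := hp.ne_zero
  constructor
  · intro r hr
    by_cases hrp : r = p
    · subst hrp
      obtain ⟨w, hw⟩ := cube r (by omega)
      have hw3 : w ^ 3 = 1 := by linear_combination (w - 1) * hw
      have hwp : w ^ r = w := by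
        obtain ⟨k, hk⟩ : ∃ k, r = 3 * k + 1 := ⟨r / 3, by omega⟩
        calc w ^ r = w ^ (3 * k + 1) := congrArg (fun n : ℕ => w ^ n) hk
          _ = w := by rw [pow_add, pow_mul, hw3, one_pow, one_mul, pow_one]
      obtain ⟨v, hv⟩ := sq_odd r (by rintro rfl; omega) (1 + r * a ^ 2 - r * b ^ 2) 1
        ⟨b ^ 2 - a ^ 2, by ring⟩ (by
          intro h
          have : r ∣ 1 := by exact_mod_cast h
          exact hp.one_lt.ne' (Nat.dvd_one.1 this))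
      refine ⟨1, w, w ^ 2, v, Or.inl one_ne_zero, ?_, ?_⟩
      · rw [one_pow, hwp, ← pow_mul, mul_comm, pow_mul, hwp]
        linear_combination hw
      · rw [hv]
        push_cast
        have h6 : (w ^ 2) ^ 3 = 1 := by rw [← pow_mul, mul_comm, pow_mul, hw3, one_pow]
        rw [h6, hw3]
        ring
    by_cases hr2 : r = 2
    · subst hr2
      obtain ⟨v, hv⟩ := sq_two (-(p : ℤ)) (by omega)
      refine ⟨0, 1, -1, v * a, Or.inr (Or.inl one_ne_zero), ?_, ?_⟩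
      · rw [zero_pow hp0, one_pow, hodd.neg_one_pow]
        ring
      · rw [mul_pow, hv]
        push_cast
        ring
    · have hpr : ¬ (r : ℤ) ∣ (p : ℤ) := by
        intro h
        have h1 : r ∣ p := by exact_mod_cast h
        exact hrp ((Nat.prime_dvd_prime_iff_eq hr.out hp).1 h1)
      rcases three r hr2 p hpr with ⟨k, h1, h2⟩ | ⟨k, h1, h2⟩ | ⟨k, h1, h2⟩
      · obtain ⟨v, hv⟩ := sq_odd r hr2 _ k h1 h2
        refine ⟨1, -1, 0, v, Or.inl one_ne_zero, ?_, ?_⟩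
        · rw [zero_pow hp0, one_pow, hodd.neg_one_pow]
          ring
        · rw [hv]
          push_cast
          ring
      · obtain ⟨v, hv⟩ := sq_odd r hr2 _ k h1 h2
        refine ⟨0, 1, -1, v * a, Or.inr (Or.inl one_ne_zero), ?_, ?_⟩
        · rw [zero_pow hp0, one_pow, hodd.neg_one_pow]
          ring
        · rw [mul_pow, hv]
          push_cast
          ring
      · obtain ⟨v, hv⟩ := sq_odd r hr2 _ k h1 h2
        refine ⟨-1, 0, 1, v * b, Or.inr (Or.inr one_ne_zero), ?_, ?_⟩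
        · rw [zero_pow hp0, one_pow, hodd.neg_one_pow]
          ring
        · rw [mul_pow, hv]
          push_cast
          ring
  · refine ⟨-1, 0, 1, Real.sqrt p * b, Or.inr (Or.inr one_ne_zero), ?_, ?_⟩
    · rw [zero_pow hp0, one_pow, hodd.neg_one_pow]
      ring
    · rw [mul_pow, Real.sq_sqrt (Nat.cast_nonneg p)]
      ring

end Pool.Agent.K3h16.FC
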