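import Pool.Agent.K3h1.FC.Stm

set_option autoImplicit false

/-! Brick RAT of helper1's project FC. -/

namespace Pool.Agent.K3h16.FC

open NumberField IsDedekindDomain Polynomial Pool.Agent.Y546.WQ Pool.Agent.K3h1.FC

open scoped TensorProduct

lemma rat_tmul (r : ℕ) [Fact r.Prime] (E : Type) [Field E] [NumberField E] (q : ℚ) (e : E) :
    ((q : ℚ_[r]) ⊗ₜ[ℚ] e : Loc r E) = (1 : ℚ_[r]) ⊗ₜ[ℚ] ((q : E) * e) := by
  have h1 : (q : ℚ_[r]) = q • (1 : ℚ_[r]) := by
    rw [Rat.smul_def, mul_one]
  have h2 : (q : E) * e = q • e := by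
    rw [Rat.smul_def]
  rw [h1, h2, TensorProduct.smul_tmul]

/-- brick RAT -/
theorem mainRAT : S_RAT := by
  classical
  intro p hpF hp2 E _ _ c x y z hne hsum
  have hp : p.Prime := Fact.out
  have hodd : Odd p := hp.odd_of_ne_two hp2
  have hp0 : p ≠ 0 := hp.ne_zero
  by_cases hz : z = 0
  · subst hz
    rw [zero_pow hp0, add_zero] at hsum
    have hyx : y = -x := by
      have h1 : y ^ p = (-x) ^ p := by
        rw [hodd.neg_pow]
        linear_combination hsum
      exact hodd.strictMono_pow.injective h1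
    subst hyx
    have hx : x ≠ 0 := by
      rcases hne with h | h | h
      · exact h
      · simpa using h
      · exact absurd rfl h
    have hxE : (x : E) ≠ 0 := by exact_mod_cast hx
    have h1mem : (1 : E) ∈ nthRootsFinset p (1 : E) := by
      rw [mem_nthRootsFinset hp.pos, one_pow]
    refine ⟨fun ξ => if ξ = 1 then (∏ η ∈ (nthRootsFinset p (1 : E)).erase 1, (x : E) * (1 - η))⁻¹
      else (x : E) * (1 - ξ), 1, ?_, ?_⟩
    · have hpr : ∏ η ∈ (nthRootsFinset p (1 : E)).erase 1, (x : E) * (1 - η) ≠ 0 := by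
        rw [Finset.prod_ne_zero_iff]
        intro η hη
        rw [Finset.mem_erase] at hη
        exact mul_ne_zero hxE (sub_ne_zero.2 (Ne.symm hη.1))
      constructor
      · intro ξ _
        split_ifs with h
        · exact inv_ne_zero hpr
        · exact mul_ne_zero hxE (sub_ne_zero.2 (Ne.symm h))
      · rw [← Finset.mul_prod_erase _ _ h1mem, if_pos rfl, one_pow]
        have h3 : ∏ η ∈ (nthRootsFinset p (1 : E)).erase 1,
            (if η = 1 then (∏ η ∈ (nthRootsFinset p (1 : E)).erase 1, (x : E) * (1 - η))⁻¹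
              else (x : E) * (1 - η)) =
            ∏ η ∈ (nthRootsFinset p (1 : E)).erase 1, (x : E) * (1 - η) := by
          apply Finset.prod_congr rfl
          intro η hη
          rw [Finset.mem_erase] at hη
          rw [if_neg hη.1]
        rw [h3, inv_mul_cancel₀ hpr]
    · intro r _
      refine ⟨1, fun ξ => if ξ = 1 then 0 else 1, ?_, ?_⟩
      · intro ξ _
        simp only
        rw [rat_tmul, rat_tmul]
        by_cases h : ξ = 1
        · subst h
          rw [if_pos rfl, if_pos rfl, zero_pow hp0, mul_zero, ← TensorProduct.tmul_add]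
          have : (x : E) * 1 + ((-x : ℚ) : E) * 1 = 0 := by push_cast; ring
          rw [this, TensorProduct.tmul_zero, mul_zero]
        · have e : (x : E) * 1 + ((-x : ℚ) : E) * ξ = (x : E) * (1 - ξ) := by push_cast; ring
          rw [if_neg h, if_neg h, ← TensorProduct.tmul_add, e]
          simp only [one_pow, mul_one, Units.val_one, one_mul]
      · have h4 : ∏ ξ ∈ nthRootsFinset p (1 : E), (if ξ = 1 then (0 : Loc r E) else 1) = 0 :=
          Finset.prod_eq_zero h1mem (if_pos rfl)
        simp only
        rw [h4, mul_zero]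
        simp
  · have hzE : (z : E) ≠ 0 := by exact_mod_cast hz
    have hprod : ∏ ξ ∈ nthRootsFinset p (1 : E), ((x : E) + ξ * y) = (-(z : E)) ^ p := by
      rw [← IsPrimitiveRoot.pow_add_pow_eq_prod_add_mul (x : E) y hodd c.prim, hodd.neg_pow]
      have : ((x ^ p + y ^ p + z ^ p : ℚ) : E) = 0 := by rw [hsum, Rat.cast_zero]
      push_cast at this
      linear_combination this
    refine ⟨fun ξ => (x : E) + ξ * y, -(z : E), ⟨?_, hprod⟩, ?_⟩
    · have h1 : ∏ ξ ∈ nthRootsFinset p (1 : E), ((x : E) + ξ * y) ≠ 0 := by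
        rw [hprod]
        exact pow_ne_zero _ (neg_ne_zero.2 hzE)
      rw [Finset.prod_ne_zero_iff] at h1
      exact h1
    · intro r _
      refine ⟨1, fun _ => 1, ?_, ?_⟩
      · intro ξ _
        have e : (x : E) * 1 + (y : E) * ξ = (x : E) + ξ * y := by ring
        simp only
        rw [rat_tmul, rat_tmul, ← TensorProduct.tmul_add, e]
        simp only [one_pow, mul_one, Units.val_one, one_mul]
      · have h5 : (-(z : ℚ_[r])) = (((-z : ℚ)) : ℚ_[r]) := by push_cast; ring
        simp only
        have e : ((-z : ℚ) : E) * 1 = -(z : E) := by push_cast; ring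
        rw [h5, rat_tmul, e]
        simp only [Finset.prod_const_one, mul_one, Units.val_one, one_mul]

end Pool.Agent.K3h16.FC
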