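import Pool.Agent.K3h1.FC.Stm
import Pool.Agent.K3h16.FC.SOL

set_option autoImplicit false

namespace Pool.Agent.K3h16.FC

/-- brick SOL -/
theorem mainSOL : Pool.Agent.K3h1.FC.S_SOL := fun p hp h24 a b ha hb => sol p hp h24 a b ha hb

end Pool.Agent.K3h16.FC
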